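import Pool.Agent.X1.SseR8

/-!
# MP_993212_an: `2 × 2` matrices over `ℕ` with `500 |det| ≤ tr²`

For all pairs of `2 × 2` matrices in this range strong shift equivalence over `ℕ` is shift
equivalence over `ℕ` (for irreducible matrices: over `ℤ`); for integer eigenvalues it is an explicit
finite arithmetical condition.
-/

set_option autoImplicit false

namespace Pool.Agent.Results.MP_993212_an.IntEigenShiftEq

open Matrix

/-- Elementary equivalence of square matrices over `ℕ`: `A = R S`, `B = S R` for rectangular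
matrices `R`, `S` over `ℕ`. -/
def Elem (X Y : Σ n : ℕ, Matrix (Fin n) (Fin n) ℕ) : Prop :=
  ∃ (R : Matrix (Fin X.1) (Fin Y.1) ℕ) (S : Matrix (Fin Y.1) (Fin X.1) ℕ),
    X.2 = R * S ∧ Y.2 = S * R

/-- Strong shift equivalence over `ℕ` (a finite chain of elementary equivalences). -/
def SSE {n m : ℕ} (A : Matrix (Fin n) (Fin n) ℕ) (B : Matrix (Fin m) (Fin m) ℕ) : Prop :=
  Relation.TransGen Elem ⟨n, A⟩ ⟨m, B⟩

/-- Shift equivalence of square matrices over a semiring `k` (used for `k = ℕ` and `k = ℤ`). -/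
def SE (k : Type) [Semiring k] {n m : ℕ} (A : Matrix (Fin n) (Fin n) k)
    (B : Matrix (Fin m) (Fin m) k) : Prop :=
  ∃ l, 1 ≤ l ∧ ∃ (R : Matrix (Fin n) (Fin m) k) (S : Matrix (Fin m) (Fin n) k),
    A ^ l = R * S ∧ B ^ l = S * R ∧ A * R = R * B ∧ S * A = B * S

/-- The matrix over `ℤ`. -/
def toZ (A : Matrix (Fin 2) (Fin 2) ℕ) : Matrix (Fin 2) (Fin 2) ℤ := A.map (Nat.cast : ℕ → ℤ)

/-- Irreducibility of a `2 × 2` matrix over `ℕ`. -/
def Irr (A : Matrix (Fin 2) (Fin 2) ℕ) : Prop := A 0 1 ≠ 0 ∧ A 1 0 ≠ 0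

/-- Similarity over `ℤ`: `U X = Y U` with `det U = ± 1`. -/
def Similar (X Y : Matrix (Fin 2) (Fin 2) ℤ) : Prop :=
  ∃ U : Matrix (Fin 2) (Fin 2) ℤ, IsUnit U.det ∧ U * X = Y * U

theorem result :
    (∀ A B : Matrix (Fin 2) (Fin 2) ℕ, 500 * |(toZ A).det| ≤ (toZ A).trace ^ 2 →
      (SSE A B ↔ SE ℕ A B) ∧ (Irr A → Irr B → (SSE A B ↔ SE ℤ (toZ A) (toZ B)))) ∧
    (∀ (A B : Matrix (Fin 2) (Fin 2) ℕ) (lam mu x x' : ℤ), Irr A → Irr B → mu ≠ 0 → |mu| < lam →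
      500 * |lam * mu| ≤ (lam + mu) ^ 2 → Similar (toZ A) !![lam, x; 0, mu] →
      Similar (toZ B) !![lam, x'; 0, mu] →
      (SSE A B ↔ ∃ r s : ℤ, r ∣ lam ^ (lam - mu).toNat ∧ s ∣ mu ^ (lam - mu).toNat ∧
        (lam - mu) ∣ s * x - r * x')) ∧
    (∀ (A : Matrix (Fin 2) (Fin 2) ℕ) (lam mu : ℤ), Irr A → (toZ A).trace = lam + mu →
      (toZ A).det = lam * mu → ∃ x : ℤ, Similar (toZ A) !![lam, x; 0, mu]) := by
  refine ⟨?_, ?_, ?_⟩
  · intro A B h
    obtain ⟨h1, h2⟩ := Pool.Agent.X1.SseR.main A B h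
    exact ⟨h1, fun a b => h2 a.1 a.2 b.1 b.2⟩
  · intro A B lam mu x x' a b hmu habs hquad hx hx'
    have hK : 0 < lam - mu := by
      have := (abs_lt.mp habs).2
      linarith
    have h1 := Pool.Agent.X1.SseR.crit A B a.1 a.2 b.1 b.2 lam mu x x' hmu habs hquad hx hx'
    exact Iff.trans h1 (Pool.Agent.X1.SseR.finite_crit lam mu x x' hK)
  · intro A lam mu a hT hD
    exact Pool.Agent.X1.SseR.exists_tri A a.1 lam mu hT hD

end Pool.Agent.Results.MP_993212_an.IntEigenShiftEq
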