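import Pool.Agent.X315.SF.Rad

/-!
# MP_993212_an: `2 × 2` matrices with an entry whose prime factors divide the determinant

Irreducible `2 × 2` matrices over `ℕ` with the same trace and the same nonpositive determinant are
strong shift equivalent if each of them has an entry off the diagonal all of whose prime factors
divide the determinant.
-/

set_option autoImplicit false

namespace Pool.Agent.Results.MP_993212_an.SmoothEntry

open Matrix

/-- Elementary equivalence of square matrices over `ℕ`: `A = R S`, `B = S R` for rectangular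
matrices `R`, `S` over `ℕ`. -/
def Elem (X Y : Σ n : ℕ, Matrix (Fin n) (Fin n) ℕ) : Prop :=
  ∃ (R : Matrix (Fin X.1) (Fin Y.1) ℕ) (S : Matrix (Fin Y.1) (Fin X.1) ℕ),
    X.2 = R * S ∧ Y.2 = S * R

/-- Strong shift equivalence over `ℕ` (a finite chain of elementary equivalences). -/
def SSE {n m : ℕ} (A : Matrix (Fin n) (Fin n) ℕ) (B : Matrix (Fin m) (Fin m) ℕ) : Prop :=
  Relation.TransGen Elem ⟨n, A⟩ ⟨m, B⟩

/-- The `2 × 2` matrix is irreducible: both entries off the diagonal are positive. -/
def Irreducible2 (A : Matrix (Fin 2) (Fin 2) ℕ) : Prop := 0 < A 0 1 ∧ 0 < A 1 0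

/-- The determinant, an integer. -/
def detZ (A : Matrix (Fin 2) (Fin 2) ℕ) : ℤ := (A.map (Nat.cast : ℕ → ℤ)).det

/-- One of the two entries off the diagonal has only prime factors which divide the
determinant. -/
def HasSmoothEntry (A : Matrix (Fin 2) (Fin 2) ℕ) : Prop :=
  (∀ p : ℕ, p.Prime → p ∣ A 0 1 → (p : ℤ) ∣ detZ A) ∨
    ∀ p : ℕ, p.Prime → p ∣ A 1 0 → (p : ℤ) ∣ detZ A

/-- Let `A` and `B` be irreducible `2 × 2` matrices over `ℕ` with the same trace and the same
determinant, which is not positive. If each of them has an entry off the diagonal all of whose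
prime factors divide the determinant, then `A` and `B` are strong shift equivalent over `ℕ`. -/
theorem result (A B : Matrix (Fin 2) (Fin 2) ℕ) (hA : Irreducible2 A) (hB : Irreducible2 B)
    (ht : A.trace = B.trace) (hd : detZ A = detZ B) (hneg : detZ A ≤ 0)
    (hA' : HasSmoothEntry A) (hB' : HasSmoothEntry B) : SSE A B :=
  Pool.Agent.X315.SF.sse_of_rad hA hB ht hd hneg hA' hB'

end Pool.Agent.Results.MP_993212_an.SmoothEntry
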