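import Pool.Agent.X315.SF.Final

/-!
# MP_993212_an: irreducible `2 × 2` matrices over `ℕ` with spectral radius at most `5.47`

For irreducible `2 × 2` matrices over `ℕ` with spectral radius at most `5.47` (in particular for
entropy at most `log 5`) strong shift equivalence over `ℕ`, shift equivalence over `ℕ` and shift
equivalence over `ℤ` coincide, and they are decided by an explicit rule.  The chains of elementary
equivalences (through matrices of size at most five, with up to 185 steps) have been found by a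
computer search and are checked by the kernel.  The next spectral radius which occurs is that of
the pair `[[1, 5], [4, 1]]`, `[[1, 20], [1, 1]]`, which is `1 + √20 = 5.4721...`.
-/

set_option autoImplicit false

namespace Pool.Agent.Results.MP_993212_an.SpectralRadiusFive

open Matrix

/-- Elementary equivalence of square matrices over `ℕ`: `A = R S`, `B = S R` for rectangular
matrices `R`, `S` over `ℕ`. -/
def Elem (X Y : Σ n : ℕ, Matrix (Fin n) (Fin n) ℕ) : Prop :=
  ∃ (R : Matrix (Fin X.1) (Fin Y.1) ℕ) (S : Matrix (Fin Y.1) (Fin X.1) ℕ),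
    X.2 = R * S ∧ Y.2 = S * R

/-- Strong shift equivalence over `ℕ` (a finite chain of elementary equivalences). -/
def SSE {n m : ℕ} (A : Matrix (Fin n) (Fin n) ℕ) (B : Matrix (Fin m) (Fin m) ℕ) : Prop :=
  Relation.TransGen Elem ⟨n, A⟩ ⟨m, B⟩

/-- Shift equivalence of square matrices over a semiring `k` (used for `k = ℕ` and `k = ℤ`). -/
def SE (k : Type) [Semiring k] {n m : ℕ} (A : Matrix (Fin n) (Fin n) k)
    (B : Matrix (Fin m) (Fin m) k) : Prop :=
  ∃ l, 1 ≤ l ∧ ∃ (R : Matrix (Fin n) (Fin m) k) (S : Matrix (Fin m) (Fin n) k),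
    A ^ l = R * S ∧ B ^ l = S * R ∧ A * R = R * B ∧ S * A = B * S

/-- The `2 × 2` matrix is irreducible: both entries off the diagonal are positive. -/
def Irreducible2 (A : Matrix (Fin 2) (Fin 2) ℕ) : Prop := 0 < A 0 1 ∧ 0 < A 1 0

/-- The spectral radius is at most `r`: all complex roots of the characteristic polynomial have
modulus at most `r`. -/
def SpectralRadiusLE (A : Matrix (Fin 2) (Fin 2) ℕ) (r : ℝ) : Prop :=
  ∀ z : ℂ, (A.map (Nat.cast : ℕ → ℂ)).charpoly.IsRoot z → ‖z‖ ≤ r

/-- Modulo `m` the matrix is `a` times the identity matrix, with `a` invertible modulo `m`. -/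
def ScalarMod (m : ℕ) (A : Matrix (Fin 2) (Fin 2) ℕ) : Prop :=
  A 0 1 % m = 0 ∧ A 1 0 % m = 0 ∧ A 0 0 % m = A 1 1 % m ∧ Nat.Coprime (A 0 0) m

/-- Let `A` and `B` be irreducible `2 × 2` matrices over `ℕ`, the spectral radius of `A` at most
`5.47`. Then strong shift equivalence of `A` and `B` over `ℕ`, shift equivalence over `ℕ` and shift
equivalence over `ℤ` are equivalent to each other, and to the following: `A` and `B` have the same
trace and the same determinant, and for each of `m = 2, 3, 4` either both or none of them are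
scalar and invertible modulo `m`. -/
theorem result (A B : Matrix (Fin 2) (Fin 2) ℕ) (hA : Irreducible2 A) (hB : Irreducible2 B)
    (hr : SpectralRadiusLE A 5.47) :
    (SSE A B ↔ SE ℕ A B) ∧
    (SSE A B ↔ SE ℤ (A.map (Nat.cast : ℕ → ℤ)) (B.map (Nat.cast : ℕ → ℤ))) ∧
    (SSE A B ↔ A.trace = B.trace ∧
      (A.map (Nat.cast : ℕ → ℤ)).det = (B.map (Nat.cast : ℕ → ℤ)).det ∧
      ∀ m ∈ [2, 3, 4], ScalarMod m A ↔ ScalarMod m B) := by
  obtain ⟨h1, h2, h3⟩ := Pool.Agent.X315.SF.main A B hA hB hr
  refine ⟨h1, h1.trans h2, h3.trans ?_⟩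
  unfold Pool.Agent.X315.SF.SameInv
  refine and_congr ?_ (and_congr ?_ Iff.rfl)
  · rw [Matrix.trace_fin_two, Matrix.trace_fin_two]
  · rw [Matrix.det_fin_two, Matrix.det_fin_two]
    simp only [Matrix.map_apply]
    constructor
    · intro h
      have h' : (A 0 0 : ℤ) * A 1 1 + B 0 1 * B 1 0 = B 0 0 * B 1 1 + A 0 1 * A 1 0 := by
        exact_mod_cast h
      linarith
    · intro h
      have h' : (A 0 0 : ℤ) * A 1 1 + B 0 1 * B 1 0 = B 0 0 * B 1 1 + A 0 1 * A 1 0 := by
        linarith
      exact_mod_cast h'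

end Pool.Agent.Results.MP_993212_an.SpectralRadiusFive
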